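import Mathlib
import Pool.Agent.W978.QO.As
import Pool.Agent.W509.QN.BR
import Pool.Agent.W597.QN.RK
import Pool.Agent.W60.QN.Cmp
import Pool.Agent.W571.QN.Nst
import Pool.Agent.W585.QN.DET
import Pool.Agent.W240.QN.PT
import Pool.Agent.W150.QN.R
import Pool.Agent.W735.QN.CD
import Pool.Agent.W236.QN.QA
import Pool.Agent.W490.QO.SL
import Pool.Agent.W899.QO.Rho
import Pool.Agent.W737.QO.Avg
import Pool.Agent.W279.QO.DC
import Pool.Agent.W659.QO.L1
import Pool.Agent.W831.QO.L2
import Pool.Agent.W765.QO.L3
import Pool.Agent.W452.QO.LB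
import Pool.Agent.W891.QO.LS

/-!
The order of magnitude of the number of rational points of bounded anticanonical height on an
open subset `U` of every smooth divisor `X` of type `(1,1,1)` in the threefold product of the
projective plane over the rational numbers (Fano fivefolds of Picard number 3).

* `tf a P` is the value at `P` of the trilinear form with integer coefficients `a`; the
  divisor `X` is given by `tf a P = 0`.
* `Smooth a`: there is no complex point of `X` at which all partial derivatives vanish.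
* `InU a P`: the open set `U` of all points where the determinants of the three `3 × 3` matrices
  `mt a k l P` (of the bilinear form which the trilinear form becomes in the arguments `k` and `l`)
  do not vanish.
* `Rep v`: `v` is the normalised primitive integer representative of a rational point of the
  projective plane (`Prim v`: coprime coordinates, in Bezout form); its height is `nm v`, the
  maximum of the absolute values of the coordinates.
* The anticanonical height of the point `(P 0, P 1, P 2)` is the product of the squares of the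
  heights of the `P i` (`-K = (2,2,2)`).

The theorem: `U` is not empty, and the number of rational points of `U` of anticanonical height at
most `T` is finite and lies between `c T (log T) ^ 2` and `C T (log T) ^ 2` for all large `T`.
-/

namespace Pool.Agent.Results.MP_1acd66_nt.TrilinearOrder

open Pool.Agent.W978.QN Pool.Agent.W978.QO

theorem result (a : (Fin 3 → Fin 3) → ℤ) (ha : Smooth a) :
    (∃ P : Fin 3 → Fin 3 → ℂ, (∀ i, P i ≠ 0) ∧ tf a P = 0 ∧ InU a P) ∧
    ∃ c C T₀ : ℝ, 0 < c ∧ 0 < C ∧ ∀ T : ℝ, T₀ ≤ T →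
      {P : Fin 3 → Fin 3 → ℤ | (∀ i, Rep (P i)) ∧ tf a P = 0 ∧ InU a P ∧
        ∏ i, (nm (P i) : ℝ) ^ 2 ≤ T}.Finite ∧
      c * T * Real.log T ^ 2 ≤
        ({P : Fin 3 → Fin 3 → ℤ | (∀ i, Rep (P i)) ∧ tf a P = 0 ∧ InU a P ∧
          ∏ i, (nm (P i) : ℝ) ^ 2 ≤ T}.ncard : ℝ) ∧
      ({P : Fin 3 → Fin 3 → ℤ | (∀ i, Rep (P i)) ∧ tf a P = 0 ∧ InU a P ∧
          ∏ i, (nm (P i) : ℝ) ^ 2 ≤ T}.ncard : ℝ) ≤ C * T * Real.log T ^ 2 :=
  have hRK := Pool.Agent.W597.QN.rk Pool.Agent.W509.QN.br
  have hDC := Pool.Agent.W279.QO.main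
  Pool.Agent.W978.QO.main Pool.Agent.W509.QN.br Pool.Agent.W150.QN.primPlane
    Pool.Agent.W735.QN.t_CD Pool.Agent.W236.QN.qa Pool.Agent.W490.QO.t_SL
    Pool.Agent.W60.QN.t_CMP Pool.Agent.W571.QN.nul hRK
    (Pool.Agent.W737.QO.Avg.main Pool.Agent.W899.QO.rhoThm) hDC
    (Pool.Agent.W585.QN.main Pool.Agent.W509.QN.br hRK) Pool.Agent.W240.QN.PT.pt
    (Pool.Agent.W452.QO.lb hDC Pool.Agent.W659.QO.t_L1 Pool.Agent.W831.QO.l2
      Pool.Agent.W765.QO.l3)
    Pool.Agent.W891.QO.ls a ha

end Pool.Agent.Results.MP_1acd66_nt.TrilinearOrder
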